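import Pool.Agent.H24.FD.P1

/-!
# MP_1f2761, k = 2: row ATY, Hoeffding bound for an atypical macro-digit
-/

set_option autoImplicit false

open Finset

namespace Pool.Agent.H24.FD

namespace AtyAux

/-- the weights of the exponential moment -/
noncomputable def wt3 (c : ℝ) (x : Fin 3) : ℝ :=
  if x = 0 then Real.exp (-(2 * c)) else if x = 1 then 0 else Real.exp (2 * c)

theorem wt3_nonneg (c : ℝ) (x : Fin 3) : 0 ≤ wt3 c x := by
  unfold wt3
  split_ifs
  · exact (Real.exp_pos _).le
  · exact le_refl _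
  · exact (Real.exp_pos _).le

theorem sum_wt3 (c : ℝ) : ∑ x : Fin 3, wt3 c x = 2 * Real.cosh (2 * c) := by
  rw [Fin.sum_univ_three]
  unfold wt3
  rw [if_pos rfl, if_neg (by decide), if_pos rfl, if_neg (by decide), if_neg (by decide),
    Real.cosh_eq]
  ring

theorem sum_prod_le (c : ℝ) (l : ℕ) :
    ∑ s : Fin l → Fin 3, ∏ i, wt3 c (s i) ≤ 2 ^ l * Real.exp (2 * c ^ 2 * l) := by
  rw [← Fintype.sum_pow, sum_wt3, mul_pow]
  apply mul_le_mul_of_nonneg_left _ (by positivity)
  have h1 : Real.cosh (2 * c) ≤ Real.exp ((2 * c) ^ 2 / 2) := Real.cosh_le_exp_half_sq _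
  have h2 : Real.exp (2 * c ^ 2 * l) = Real.exp ((2 * c) ^ 2 / 2) ^ l := by
    rw [← Real.exp_nat_mul]
    ring_nf
  rw [h2]
  exact pow_le_pow_left₀ (Real.cosh_pos _).le h1 l

theorem prod_eq (c : ℝ) {l : ℕ} (s : Fin l → Fin 3) (hs : cn 1 s = 0) :
    ∏ i, wt3 c (s i) = Real.exp (4 * c * ((cn 2 s : ℝ) - l / 2)) := by
  have h1 : ∀ i, s i ≠ 1 := by
    intro i hi
    have : i ∈ univ.filter fun i => s i = 1 := Finset.mem_filter.mpr ⟨Finset.mem_univ _, hi⟩
    have h2 : (univ.filter fun i => s i = 1).card = 0 := hs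
    rw [Finset.card_eq_zero] at h2
    rw [h2] at this
    exact absurd this (Finset.notMem_empty _)
  have h2 : ∀ i, wt3 c (s i) = Real.exp (4 * c * ((if s i = 2 then (1 : ℝ) else 0) - 1 / 2)) := by
    intro i
    have h3 := h1 i
    unfold wt3
    generalize s i = x at h3 ⊢
    have h4 : ∀ x : Fin 3, x = 0 ∨ x = 1 ∨ x = 2 := by decide
    rcases h4 x with rfl | rfl | rfl
    · rw [if_pos rfl, if_neg (by decide)]
      ring_nf
    · exact absurd rfl h3
    · rw [if_neg (by decide), if_neg (by decide), if_pos rfl]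
      ring_nf
  rw [Finset.prod_congr rfl (fun i _ => h2 i), ← Real.exp_sum, ← Finset.mul_sum,
    Finset.sum_sub_distrib, Finset.sum_boole, Finset.sum_const, Finset.card_univ, Fintype.card_fin]
  unfold cn
  rw [nsmul_eq_mul]
  ring_nf

end AtyAux

open AtyAux Classical in
theorem aty : ATYStmt := by
  intro ε hε
  refine ⟨0, ?_⟩
  intro l _
  have hnn : ∀ s : Fin l → Fin 3, 0 ≤ pF ε s := by
    intro s
    unfold pF
    split_ifs <;> positivity
  constructor
  · unfold atyp
    apply Finset.sum_nonneg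
    intro s _
    split_ifs
    · exact le_refl _
    · exact hnn s
  · have key : ∀ s : Fin l → Fin 3, (if typN ε s then 0 else pF ε s) ≤
        (1 / 2 ^ l * Real.exp (-(4 * ε ^ 2 * l))) * (∏ i, wt3 ε (s i) + ∏ i, wt3 (-ε) (s i)) := by
      intro s
      have hR : 0 ≤ (1 / 2 ^ l * Real.exp (-(4 * ε ^ 2 * l))) *
          (∏ i, wt3 ε (s i) + ∏ i, wt3 (-ε) (s i)) := by
        apply mul_nonneg (by positivity)
        apply add_nonneg
        · exact Finset.prod_nonneg fun i _ => wt3_nonneg _ _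
        · exact Finset.prod_nonneg fun i _ => wt3_nonneg _ _
      by_cases ht : typN ε s
      · rw [if_pos ht]
        exact hR
      · rw [if_neg ht]
        unfold pF
        rw [if_neg ht]
        by_cases h1 : cn 1 s = 0
        · rw [if_pos h1, prod_eq ε s h1, prod_eq (-ε) s h1]
          have h2 : ε * l < |(cn 2 s : ℝ) - l / 2| := by
            unfold typN at ht
            exact not_le.mp ht
          have h3 : 1 ≤ Real.exp (-(4 * ε ^ 2 * l)) *
              (Real.exp (4 * ε * ((cn 2 s : ℝ) - l / 2)) +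
                Real.exp (4 * -ε * ((cn 2 s : ℝ) - l / 2))) := by
            rw [mul_add, ← Real.exp_add, ← Real.exp_add]
            rcases lt_abs.mp h2 with h4 | h4
            · have h5 : 1 ≤ Real.exp (-(4 * ε ^ 2 * l) + 4 * ε * ((cn 2 s : ℝ) - l / 2)) := by
                apply Real.one_le_exp
                nlinarith
              have h6 := Real.exp_pos (-(4 * ε ^ 2 * l) + 4 * -ε * ((cn 2 s : ℝ) - l / 2))
              linarith
            · have h5 : 1 ≤ Real.exp (-(4 * ε ^ 2 * l) + 4 * -ε * ((cn 2 s : ℝ) - l / 2)) := by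
                apply Real.one_le_exp
                nlinarith
              have h6 := Real.exp_pos (-(4 * ε ^ 2 * l) + 4 * ε * ((cn 2 s : ℝ) - l / 2))
              linarith
          have h7 : (0 : ℝ) ≤ 1 / 2 ^ l := by positivity
          calc (1 : ℝ) / 2 ^ l = 1 / 2 ^ l * 1 := by ring
            _ ≤ 1 / 2 ^ l * (Real.exp (-(4 * ε ^ 2 * l)) *
              (Real.exp (4 * ε * ((cn 2 s : ℝ) - l / 2)) +
                Real.exp (4 * -ε * ((cn 2 s : ℝ) - l / 2)))) :=
                mul_le_mul_of_nonneg_left h3 h7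
            _ = _ := by ring
        · rw [if_neg h1]
          exact hR
    unfold atyp
    have e1 : ∑ s : Fin l → Fin 3, (if typN ε s then 0 else pF ε s) ≤
        ∑ s : Fin l → Fin 3, (1 / 2 ^ l * Real.exp (-(4 * ε ^ 2 * l))) *
          (∏ i, wt3 ε (s i) + ∏ i, wt3 (-ε) (s i)) := Finset.sum_le_sum fun s _ => key s
    rw [← Finset.mul_sum, Finset.sum_add_distrib] at e1
    have e2 := sum_prod_le ε l
    have e3 := sum_prod_le (-ε) l
    rw [neg_sq] at e3
    have e4 : (1 / 2 ^ l * Real.exp (-(4 * ε ^ 2 * l))) *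
        (∑ s : Fin l → Fin 3, ∏ i, wt3 ε (s i) + ∑ s : Fin l → Fin 3, ∏ i, wt3 (-ε) (s i)) ≤
        (1 / 2 ^ l * Real.exp (-(4 * ε ^ 2 * l))) *
        (2 ^ l * Real.exp (2 * ε ^ 2 * l) + 2 ^ l * Real.exp (2 * ε ^ 2 * l)) :=
      mul_le_mul_of_nonneg_left (add_le_add e2 e3) (by positivity)
    have e5 : (1 / 2 ^ l * Real.exp (-(4 * ε ^ 2 * l))) *
        (2 ^ l * Real.exp (2 * ε ^ 2 * l) + 2 ^ l * Real.exp (2 * ε ^ 2 * l)) =
        2 * Real.exp (-(2 * ε ^ 2 * l)) := by
      have h2l : (2 : ℝ) ^ l ≠ 0 := by positivity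
      have h8 : Real.exp (-(2 * ε ^ 2 * l)) =
          Real.exp (-(4 * ε ^ 2 * l)) * Real.exp (2 * ε ^ 2 * l) := by
        rw [← Real.exp_add]
        ring_nf
      rw [h8]
      field_simp
      ring
    linarith

end Pool.Agent.H24.FD
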