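import Pool.Agent.H24.FD.P1

/-!
# MP_1f2761, k = 2: row PIM, the marginal of the policy
-/

set_option autoImplicit false

open Finset

namespace Pool.Agent.H24.FD

namespace PimAux

/-- binary digits of a sum -/
theorem bits_inj : ∀ (l : ℕ) (f g : Fin l → ℕ), (∀ i, f i < 2) → (∀ i, g i < 2) →
    ∑ i : Fin l, 2 ^ (i : ℕ) * f i = ∑ i : Fin l, 2 ^ (i : ℕ) * g i → f = g := by
  intro l
  induction l with
  | zero =>
    intro f g _ _ _
    exact Subsingleton.elim _ _
  | succ l ih =>
    intro f g hf hg h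
    rw [Fin.sum_univ_succ, Fin.sum_univ_succ] at h
    have e : ∀ f : Fin (l + 1) → ℕ, ∑ i : Fin l, 2 ^ ((Fin.succ i : Fin (l + 1)) : ℕ) * f i.succ =
        2 * ∑ i : Fin l, 2 ^ (i : ℕ) * f i.succ := by
      intro f
      rw [Finset.mul_sum]
      apply Finset.sum_congr rfl
      intro i _
      rw [Fin.val_succ, pow_succ]
      ring
    rw [e f, e g] at h
    simp only [Fin.val_zero, pow_zero, one_mul] at h
    have h1 := hf 0
    have h2 := hg 0
    have h3 : f 0 = g 0 := by omega
    have h4 : ∑ i : Fin l, 2 ^ (i : ℕ) * f i.succ = ∑ i : Fin l, 2 ^ (i : ℕ) * g i.succ := by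
      omega
    have h5 := ih (fun i => f i.succ) (fun i => g i.succ) (fun i => hf _) (fun i => hg _) h4
    funext i
    refine Fin.cases h3 (fun j => ?_) i
    exact congrFun h5 j

/-- base `B` digits of a sum -/
theorem digs_inj (B : ℕ) : ∀ (k : ℕ) (f g : Fin k → ℕ), (∀ i, f i < B) → (∀ i, g i < B) →
    ∑ i : Fin k, B ^ (i : ℕ) * f i = ∑ i : Fin k, B ^ (i : ℕ) * g i → f = g := by
  intro k
  induction k with
  | zero =>
    intro f g _ _ _
    exact Subsingleton.elim _ _
  | succ k ih =>
    intro f g hf hg h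
    have hB : 0 < B := lt_of_le_of_lt (Nat.zero_le _) (hf 0)
    rw [Fin.sum_univ_succ, Fin.sum_univ_succ] at h
    have e : ∀ f : Fin (k + 1) → ℕ, ∑ i : Fin k, B ^ ((Fin.succ i : Fin (k + 1)) : ℕ) * f i.succ =
        B * ∑ i : Fin k, B ^ (i : ℕ) * f i.succ := by
      intro f
      rw [Finset.mul_sum]
      apply Finset.sum_congr rfl
      intro i _
      rw [Fin.val_succ, pow_succ]
      ring
    rw [e f, e g] at h
    simp only [Fin.val_zero, pow_zero, one_mul] at h
    have h3 : f 0 = g 0 := by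
      have := congrArg (fun n => n % B) h
      simp only [Nat.add_mul_mod_self_left] at this
      rwa [Nat.mod_eq_of_lt (hf 0), Nat.mod_eq_of_lt (hg 0)] at this
    have h4 : ∑ i : Fin k, B ^ (i : ℕ) * f i.succ = ∑ i : Fin k, B ^ (i : ℕ) * g i.succ := by
      rw [h3] at h
      exact Nat.eq_of_mul_eq_mul_left hB (Nat.add_left_cancel h)
    have h5 := ih (fun i => f i.succ) (fun i => g i.succ) (fun i => hf _) (fun i => hg _) h4
    funext i
    refine Fin.cases h3 (fun j => ?_) i
    exact congrFun h5 j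

theorem bits_lt : ∀ (l : ℕ) (f : Fin l → ℕ), (∀ i, f i < 2) →
    ∑ i : Fin l, 2 ^ (i : ℕ) * f i < 2 ^ l := by
  intro l
  induction l with
  | zero =>
    intro f _
    simp
  | succ l ih =>
    intro f hf
    rw [Fin.sum_univ_castSucc]
    have h1 := ih (fun i => f i.castSucc) (fun i => hf _)
    have h2 := hf (Fin.last l)
    simp only [Fin.val_castSucc, Fin.val_last] at h1 ⊢
    have h3 : 2 ^ l * f (Fin.last l) ≤ 2 ^ l * 1 := Nat.mul_le_mul_left _ (by omega)
    rw [pow_succ]
    omega

theorem vN_lt {l : ℕ} (s : Fin l → Fin 3) : vN s < 2 ^ l := by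
  unfold vN
  apply bits_lt l
  intro i
  split_ifs <;> omega

/-- the count of the symbol `2` is determined by the value of the `N` bits -/
theorem cn_congr {l : ℕ} (s s' : Fin l → Fin 3) (h : vN s = vN s') : cn 2 s = cn 2 s' := by
  unfold vN at h
  have h1 := bits_inj l (fun i => if s i = 2 then 1 else 0) (fun i => if s' i = 2 then 1 else 0)
    (fun i => by split_ifs <;> omega) (fun i => by split_ifs <;> omega) h
  unfold cn
  have h2 : (univ.filter fun i => s i = 2) = (univ.filter fun i => s' i = 2) := by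
    apply Finset.filter_congr
    intro i _
    have h3 : (if s i = 2 then 1 else 0) = (if s' i = 2 then 1 else 0) := congrFun h1 i
    constructor
    · intro h4
      by_contra h5
      rw [if_pos h4, if_neg h5] at h3
      omega
    · intro h4
      by_contra h5
      rw [if_pos h4, if_neg h5] at h3
      omega
  rw [h2]

theorem typN_congr {l : ℕ} (ε : ℝ) (s s' : Fin l → Fin 3) (h : vN s = vN s') :
    typN ε s ↔ typN ε s' := by
  unfold typN
  rw [cn_congr s s' h]

theorem all_typN_congr {l k : ℕ} (ε : ℝ) (S S' : Fin k → Fin l → Fin 3) (h : VN S = VN S') :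
    (∀ i, typN ε (S i)) ↔ ∀ i, typN ε (S' i) := by
  unfold VN at h
  have h1 := digs_inj (2 ^ l) k (fun i => vN (S i)) (fun i => vN (S' i)) (fun i => vN_lt _)
    (fun i => vN_lt _) h
  constructor
  · intro h2 i
    exact (typN_congr ε _ _ (congrFun h1 i)).mp (h2 i)
  · intro h2 i
    exact (typN_congr ε _ _ (congrFun h1 i)).mpr (h2 i)

theorem ZZ_congr (q l k : ℕ) (ε : ℝ) (om : ℕ → ℕ × ℕ → ℝ) (J : ℕ) (x : ℕ × ℕ)
    (S S' : Fin k → Fin l → Fin 3) (h : VN S = VN S') :
    ZZ q l k ε om J x S = ZZ q l k ε om J x S' := by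
  unfold ZZ
  rw [h]

theorem keep_congr (q l k : ℕ) (ε : ℝ) (om : ℕ → ℕ × ℕ → ℝ) (J : ℕ) (x : ℕ × ℕ)
    (S S' : Fin k → Fin l → Fin 3) (h : VN S = VN S') :
    keep q l k ε om J x S ↔ keep q l k ε om J x S' := by
  unfold keep
  rw [all_typN_congr ε S S' h, ZZ_congr q l k ε om J x S S' h]

end PimAux

open PimAux Classical in
theorem pim (hP : PFMStmt) : PIMStmt := by
  intro q l k ε om hM J x η hη
  have hF := hP ε l hM k η hη
  by_cases hK : ∃ S0 : Fin k → Fin l → Fin 3, VN S0 = η ∧ keep q l k ε om J x S0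
  · obtain ⟨S0, hS0, hk⟩ := hK
    have hZ : 0 < ZZ q l k ε om J x S0 := by
      have := hk.2
      linarith
    have h1 : ∀ S : Fin k → Fin l → Fin 3,
        (if VN S = η then piQ q l k ε om J x S else 0) =
        (if VN S = VN S0 then PF ε S * om J (zz q (l * k) J (app x S)) else 0) /
          ZZ q l k ε om J x S0 := by
      intro S
      by_cases hS : VN S = η
      · have h2 : VN S = VN S0 := by rw [hS, hS0]
        rw [if_pos hS, if_pos h2]
        unfold piQ
        rw [if_pos ((keep_congr q l k ε om J x S S0 h2).mpr hk), ZZ_congr q l k ε om J x S S0 h2]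
      · have h2 : ¬ VN S = VN S0 := by rw [hS0]; exact hS
        rw [if_neg hS, if_neg h2, zero_div]
    rw [Finset.sum_congr rfl (fun S _ => h1 S), ← Finset.sum_div]
    have h3 : ZZ q l k ε om J x S0 = 2 ^ (l * k) * ∑ S' : Fin k → Fin l → Fin 3,
      (if VN S' = VN S0 then PF ε S' * om J (zz q (l * k) J (app x S')) else 0) := rfl
    rw [div_eq_div_iff hZ.ne' (by positivity), one_mul, h3]
    ring
  · have h1 : ∀ S : Fin k → Fin l → Fin 3,
        (if VN S = η then piQ q l k ε om J x S else 0) = (if VN S = η then PF ε S else 0) := by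
      intro S
      by_cases hS : VN S = η
      · rw [if_pos hS, if_pos hS]
        unfold piQ
        rw [if_neg]
        intro hk
        exact hK ⟨S, hS, hk⟩
      · rw [if_neg hS, if_neg hS]
    rw [Finset.sum_congr rfl (fun S _ => h1 S)]
    exact hF

end Pool.Agent.H24.FD
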