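import Pool.Agent.H24.FD.P1

/-!
# MP_1f2761, k = 2: row PIN, the policy is nonnegative
-/

set_option autoImplicit false

open Finset

namespace Pool.Agent.H24.FD

theorem pF_nonneg50 (ε : ℝ) {l : ℕ} (s : Fin l → Fin 3) : 0 ≤ pF ε s := by
  unfold pF
  split_ifs <;> positivity

theorem PF_nonneg50 (ε : ℝ) {l k : ℕ} (S : Fin k → Fin l → Fin 3) : 0 ≤ PF ε S :=
  Finset.prod_nonneg fun _ _ => pF_nonneg50 ε _

theorem ZZ_nonneg50 (q l k : ℕ) (ε : ℝ) (om : ℕ → ℕ × ℕ → ℝ) (hom : ∀ J z, 0 ≤ om J z)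
    (J : ℕ) (x : ℕ × ℕ) (S : Fin k → Fin l → Fin 3) : 0 ≤ ZZ q l k ε om J x S := by
  unfold ZZ
  apply mul_nonneg (by positivity)
  apply Finset.sum_nonneg
  intro S' _
  split_ifs
  · exact mul_nonneg (PF_nonneg50 ε S') (hom _ _)
  · exact le_refl _

theorem pin : PINStmt := by
  intro q l k ε om hom J x S
  unfold piQ
  split_ifs
  · exact div_nonneg (mul_nonneg (PF_nonneg50 ε S) (hom _ _)) (ZZ_nonneg50 q l k ε om hom J x S)
  · exact PF_nonneg50 ε S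

end Pool.Agent.H24.FD
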